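import Pool.Agent.Helper40.MR.Defs

open Finset MeasureTheory
open scoped BigOperators Nat

namespace Pool.Agent.Helper40.MR

theorem mv_norm_nit (n : ℕ) (t : ℝ) : ‖nit n t‖ = 1 := by
  unfold nit
  rw [← Complex.ofReal_neg, Complex.norm_exp_ofReal_mul_I]

theorem mv_continuous_nit (n : ℕ) : Continuous (nit n) := by
  unfold nit
  fun_prop

/-- bound for a term of the theta sum -/
theorem mv_term {A k : ℝ} (hA : 0 < A) (hk : 1 ≤ k) :
    Real.exp (-(k ^ 2 / A ^ 2)) ≤ 2 * A ^ 2 * (1 / (A + k - 1) - 1 / (A + k)) := by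
  have h1 : Real.exp (-(k ^ 2 / A ^ 2)) ≤ 1 / (1 + k ^ 2 / A ^ 2) := by
    rw [Real.exp_neg, one_div]
    apply inv_anti₀ (by positivity)
    have := Real.add_one_le_exp (k ^ 2 / A ^ 2)
    linarith
  refine h1.trans ?_
  have h2 : 0 < A + k - 1 := by linarith
  have h3 : 0 < A + k := by linarith
  have h4 : 1 / (1 + k ^ 2 / A ^ 2) = A ^ 2 / (A ^ 2 + k ^ 2) := by field_simp
  have h5 : 2 * A ^ 2 * (1 / (A + k - 1) - 1 / (A + k))
      = A ^ 2 * 2 / ((A + k - 1) * (A + k)) := by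
    field_simp
    ring
  rw [h4, h5, div_le_div_iff₀ (by positivity) (by positivity)]
  have h6 : (A + k - 1) * (A + k) ≤ 2 * (A ^ 2 + k ^ 2) := by
    nlinarith [sq_nonneg (A - k)]
  nlinarith [sq_nonneg A]

theorem mv_theta {A : ℝ} (hA : 0 < A) (N n : ℕ) (hn1 : 1 ≤ n) (hn : n ≤ N) :
    ∑ m ∈ Icc 1 N, Real.exp (-(((m : ℝ) - n) ^ 2 / A ^ 2)) ≤ 1 + 4 * A := by
  have hsplit : Icc 1 N = (Ico 1 n ∪ {n}) ∪ Ico (n + 1) (N + 1) := by
    ext m
    simp only [Finset.mem_Icc, Finset.mem_union, Finset.mem_Ico, Finset.mem_singleton]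
    omega
  rw [hsplit, Finset.sum_union, Finset.sum_union, Finset.sum_singleton]
  · have h1 : ∑ m ∈ Ico 1 n, Real.exp (-(((m : ℝ) - n) ^ 2 / A ^ 2)) ≤ 2 * A := by
      calc ∑ m ∈ Ico 1 n, Real.exp (-(((m : ℝ) - n) ^ 2 / A ^ 2))
          ≤ ∑ m ∈ Ico 1 n, (2 * A ^ 2 * (1 / (A + (n - ((m + 1 : ℕ) : ℝ))))
            - 2 * A ^ 2 * (1 / (A + (n - (m : ℝ))))) := by
            apply Finset.sum_le_sum
            intro m hm
            rw [Finset.mem_Ico] at hm
            have hk : (1 : ℝ) ≤ n - m := by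
              have : ((m + 1 : ℕ) : ℝ) ≤ n := by exact_mod_cast hm.2
              push_cast at this
              linarith
            have h := mv_term hA hk
            have e1 : ((m : ℝ) - n) ^ 2 = ((n : ℝ) - m) ^ 2 := by ring
            rw [e1]
            refine h.trans (le_of_eq ?_)
            push_cast
            ring_nf
        _ = 2 * A ^ 2 * (1 / (A + (n - (n : ℝ)))) - 2 * A ^ 2 * (1 / (A + (n - ((1 : ℕ) : ℝ)))) :=
            Finset.sum_Ico_sub (fun m : ℕ => 2 * A ^ 2 * (1 / (A + (n - (m : ℝ))))) hn1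
        _ ≤ 2 * A := by
            have h2 : 0 ≤ 2 * A ^ 2 * (1 / (A + (n - ((1 : ℕ) : ℝ)))) := by
              have : (0 : ℝ) ≤ n - ((1 : ℕ) : ℝ) := by
                rw [sub_nonneg]
                exact_mod_cast hn1
              positivity
            have h3 : 2 * A ^ 2 * (1 / (A + (n - (n : ℝ)))) = 2 * A := by
              rw [sub_self, add_zero]
              field_simp
            linarith
    have h2 : ∑ m ∈ Ico (n + 1) (N + 1), Real.exp (-(((m : ℝ) - n) ^ 2 / A ^ 2)) ≤ 2 * A := by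
      calc ∑ m ∈ Ico (n + 1) (N + 1), Real.exp (-(((m : ℝ) - n) ^ 2 / A ^ 2))
          ≤ ∑ m ∈ Ico (n + 1) (N + 1), (-(2 * A ^ 2 * (1 / (A + (((m + 1 : ℕ) : ℝ) - n) - 1)))
            - -(2 * A ^ 2 * (1 / (A + ((m : ℝ) - n) - 1)))) := by
            apply Finset.sum_le_sum
            intro m hm
            rw [Finset.mem_Ico] at hm
            have hk : (1 : ℝ) ≤ m - n := by
              have : ((n + 1 : ℕ) : ℝ) ≤ m := by exact_mod_cast hm.1
              push_cast at this
              linarith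
            have h := mv_term hA hk
            refine h.trans (le_of_eq ?_)
            push_cast
            ring_nf
        _ = -(2 * A ^ 2 * (1 / (A + (((N + 1 : ℕ) : ℝ) - n) - 1)))
            - -(2 * A ^ 2 * (1 / (A + (((n + 1 : ℕ) : ℝ) - n) - 1))) :=
            Finset.sum_Ico_sub (fun m : ℕ => -(2 * A ^ 2 * (1 / (A + ((m : ℝ) - n) - 1))))
              (by omega)
        _ ≤ 2 * A := by
            have h2 : 0 ≤ 2 * A ^ 2 * (1 / (A + (((N + 1 : ℕ) : ℝ) - n) - 1)) := by
              have h4 : (0 : ℝ) ≤ (((N + 1 : ℕ) : ℝ) - n) - 1 := by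
                push_cast
                have : (n : ℝ) ≤ N := by exact_mod_cast hn
                linarith
              have h5 : 0 < A + (((N + 1 : ℕ) : ℝ) - n) - 1 := by linarith
              positivity
            have h3 : 2 * A ^ 2 * (1 / (A + (((n + 1 : ℕ) : ℝ) - n) - 1)) = 2 * A := by
              have : A + (((n + 1 : ℕ) : ℝ) - n) - 1 = A := by
                push_cast
                ring
              rw [this]
              field_simp
            linarith
    have h3 : Real.exp (-(((n : ℝ) - n) ^ 2 / A ^ 2)) = 1 := by simp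
    rw [h3]
    linarith
  · rw [Finset.disjoint_singleton_right, Finset.mem_Ico]
    omega
  · rw [Finset.disjoint_left]
    intro m
    simp only [Finset.mem_union, Finset.mem_Ico, Finset.mem_singleton]
    omega

theorem mv_log {m n N : ℕ} (hm : 1 ≤ m) (hn : 1 ≤ n) (hm' : m ≤ N) (hn' : n ≤ N) :
    |(m : ℝ) - n| / N ≤ |Real.log m - Real.log n| := by
  have hm0 : (0 : ℝ) < m := by exact_mod_cast hm
  have hn0 : (0 : ℝ) < n := by exact_mod_cast hn
  have hN0 : (0 : ℝ) < N := by exact_mod_cast (by omega : 0 < N)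
  have hmN : (m : ℝ) ≤ N := by exact_mod_cast hm'
  have hnN : (n : ℝ) ≤ N := by exact_mod_cast hn'
  rw [← Real.log_div hm0.ne' hn0.ne']
  rcases le_total (m : ℝ) n with h | h
  · have h1 : Real.log (m / n) ≤ m / n - 1 := Real.log_le_sub_one_of_pos (by positivity)
    have h2 : (m : ℝ) / n - 1 = -((n - m) / n) := by field_simp; ring
    have h3 : ((n : ℝ) - m) / N ≤ (n - m) / n :=
      div_le_div_of_nonneg_left (by linarith) hn0 hnN
    rw [abs_of_nonpos (by linarith), neg_sub, abs_of_nonpos (by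
      rw [h2] at h1
      have : 0 ≤ ((n : ℝ) - m) / n := div_nonneg (by linarith) hn0.le
      linarith)]
    rw [h2] at h1
    linarith
  · have h1 : Real.log (n / m) ≤ n / m - 1 := Real.log_le_sub_one_of_pos (by positivity)
    have h2 : (n : ℝ) / m - 1 = -((m - n) / m) := by field_simp; ring
    have h3 : ((m : ℝ) - n) / N ≤ (m - n) / m :=
      div_le_div_of_nonneg_left (by linarith) hm0 hmN
    have h4 : Real.log ((m : ℝ) / n) = -Real.log (n / m) := by rw [← Real.log_inv, inv_div]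
    have h5 : 0 ≤ ((m : ℝ) - n) / m := div_nonneg (by linarith) hm0.le
    rw [h4, abs_neg, abs_of_nonneg (by linarith : (0 : ℝ) ≤ m - n), abs_of_nonpos (by
      rw [h2] at h1; linarith)]
    rw [h2] at h1
    linarith

theorem mv_gauss {T : ℝ} (hT : 0 < T) (s : ℝ) :
    ∫ t : ℝ, Complex.exp (Complex.I * s * t) * Complex.exp (-((Real.pi / T ^ 2 : ℝ) : ℂ) * t ^ 2)
      = ((T * Real.exp (-(T ^ 2 * s ^ 2 / (4 * Real.pi))) : ℝ) : ℂ) := by
  have hb : (0 : ℝ) < Real.pi / T ^ 2 := by positivity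
  rw [fourierIntegral_gaussian (b := ((Real.pi / T ^ 2 : ℝ) : ℂ))
    (by rw [Complex.ofReal_re]; exact hb)]
  have h1 : ((Real.pi : ℂ) / ((Real.pi / T ^ 2 : ℝ) : ℂ)) ^ (1 / 2 : ℂ) = (T : ℂ) := by
    have h2 : ((Real.pi : ℂ) / ((Real.pi / T ^ 2 : ℝ) : ℂ)) = ((T ^ 2 : ℝ) : ℂ) := by
      rw [← Complex.ofReal_div]
      congr 1
      have := Real.pi_pos.ne'
      field_simp
    rw [h2, show (1 / 2 : ℂ) = ((1 / 2 : ℝ) : ℂ) by push_cast; rfl,
      ← Complex.ofReal_cpow (by positivity), ← Real.sqrt_eq_rpow, Real.sqrt_sq hT.le]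
  rw [h1]
  have h3 : Complex.exp (-(s : ℂ) ^ 2 / (4 * ((Real.pi / T ^ 2 : ℝ) : ℂ)))
      = ((Real.exp (-(T ^ 2 * s ^ 2 / (4 * Real.pi))) : ℝ) : ℂ) := by
    rw [Complex.ofReal_exp]
    congr 1
    push_cast
    have := Complex.ofReal_ne_zero.2 Real.pi_pos.ne'
    have hT' := Complex.ofReal_ne_zero.2 hT.ne'
    field_simp
  rw [h3]
  push_cast
  ring

theorem st_MV : ST_MV := by
  refine ⟨Real.exp Real.pi * 16, by positivity, ?_⟩
  intro N T c hT
  have hT0 : 0 < T := by linarith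
  rcases Nat.eq_zero_or_pos N with hN | hN
  · subst hN
    simp
  have hN0 : (0 : ℝ) < N := by exact_mod_cast hN
  set b : ℝ := Real.pi / T ^ 2 with hb
  have hb0 : 0 < b := by positivity
  set D : ℝ → ℂ := fun t => ∑ n ∈ Icc 1 N, c n * nit n t with hD
  have hDc : Continuous D := by
    apply continuous_finsetSum
    intro n _
    exact continuous_const.mul (mv_continuous_nit n)
  have hDb : ∀ t, ‖D t‖ ≤ ∑ n ∈ Icc 1 N, ‖c n‖ := by
    intro t
    refine (norm_sum_le _ _).trans (Finset.sum_le_sum fun n _ => ?_)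
    rw [norm_mul, mv_norm_nit, mul_one]
  have hint : Integrable fun t : ℝ => Real.exp (-b * t ^ 2) * ‖D t‖ ^ 2 := by
    have h1 := (integrable_exp_neg_mul_sq hb0)
    refine Integrable.mono' (h1.const_mul ((∑ n ∈ Icc 1 N, ‖c n‖) ^ 2)) ?_ ?_
    · exact (by fun_prop : Continuous fun t : ℝ => Real.exp (-b * t ^ 2) * ‖D t‖ ^ 2).aestronglyMeasurable
    · refine Filter.Eventually.of_forall fun t => ?_
      rw [Real.norm_of_nonneg (by positivity), mul_comm]
      exact mul_le_mul_of_nonneg_right (by gcongr; exact hDb t) (Real.exp_nonneg _)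
  -- first step
  have step1 : ∫ t in (-T)..T, ‖D t‖ ^ 2 ≤
      Real.exp Real.pi * ∫ t : ℝ, Real.exp (-b * t ^ 2) * ‖D t‖ ^ 2 := by
    rw [← integral_const_mul, intervalIntegral.integral_of_le (by linarith)]
    calc ∫ t in Set.Ioc (-T) T, ‖D t‖ ^ 2
        ≤ ∫ t in Set.Ioc (-T) T, Real.exp Real.pi * (Real.exp (-b * t ^ 2) * ‖D t‖ ^ 2) := by
          apply setIntegral_mono_on
          · exact ((by fun_prop : Continuous fun t : ℝ => ‖D t‖ ^ 2).integrableOn_Icc
              (a := -T) (b := T)).mono_set Set.Ioc_subset_Icc_self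
          · exact (hint.const_mul _).integrableOn
          · exact measurableSet_Ioc
          · intro t ht
            rw [← mul_assoc, ← Real.exp_add]
            have h1 : 0 ≤ Real.pi + -b * t ^ 2 := by
              have h2 : t ^ 2 ≤ T ^ 2 := by
                apply sq_le_sq'
                · linarith [ht.1]
                · exact ht.2
              have h3 : b * t ^ 2 ≤ b * T ^ 2 := mul_le_mul_of_nonneg_left h2 hb0.le
              have h4 : b * T ^ 2 = Real.pi := by rw [hb]; field_simp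
              linarith
            have h5 := Real.one_le_exp h1
            nlinarith [sq_nonneg ‖D t‖]
      _ ≤ ∫ t : ℝ, Real.exp Real.pi * (Real.exp (-b * t ^ 2) * ‖D t‖ ^ 2) := by
          apply setIntegral_le_integral (hint.const_mul _)
          exact Filter.Eventually.of_forall fun t => by positivity
  -- second step
  have step2 : ((∫ t : ℝ, Real.exp (-b * t ^ 2) * ‖D t‖ ^ 2 : ℝ) : ℂ) =
      ∑ m ∈ Icc 1 N, ∑ n ∈ Icc 1 N, c m * (starRingEnd ℂ) (c n) *
        ((T * Real.exp (-(T ^ 2 * (Real.log m - Real.log n) ^ 2 / (4 * Real.pi))) : ℝ) : ℂ) := by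
    rw [← integral_complex_ofReal]
    have h1 : ∀ t : ℝ, ((Real.exp (-b * t ^ 2) * ‖D t‖ ^ 2 : ℝ) : ℂ) =
        ∑ m ∈ Icc 1 N, ∑ n ∈ Icc 1 N, c m * (starRingEnd ℂ) (c n) *
          (Complex.exp (Complex.I * ((Real.log n - Real.log m : ℝ) : ℂ) * t) *
            Complex.exp (-(b : ℂ) * t ^ 2)) := by
      intro t
      have h2 : ((‖D t‖ ^ 2 : ℝ) : ℂ) = D t * (starRingEnd ℂ) (D t) := by
        rw [Complex.mul_conj, Complex.normSq_eq_norm_sq]
      rw [Complex.ofReal_mul, h2, hD]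
      simp only
      rw [map_sum, Finset.sum_mul_sum, Finset.mul_sum]
      refine Finset.sum_congr rfl fun m _ => ?_
      rw [Finset.mul_sum]
      refine Finset.sum_congr rfl fun n _ => ?_
      have h3 : nit m t * (starRingEnd ℂ) (nit n t)
          = Complex.exp (Complex.I * ((Real.log n - Real.log m : ℝ) : ℂ) * t) := by
        unfold nit
        rw [← Complex.exp_conj, ← Complex.exp_add]
        congr 1
        simp only [map_neg, map_mul, Complex.conj_ofReal, Complex.conj_I]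
        push_cast
        ring
      rw [map_mul, ← h3, Complex.ofReal_exp]
      push_cast
      ring
    simp_rw [h1]
    have hi : ∀ m n : ℕ, Integrable fun t : ℝ => c m * (starRingEnd ℂ) (c n) *
          (Complex.exp (Complex.I * ((Real.log n - Real.log m : ℝ) : ℂ) * t) *
            Complex.exp (-(b : ℂ) * t ^ 2)) := by
      intro m n
      apply Integrable.const_mul
      refine Integrable.mono' (integrable_exp_neg_mul_sq hb0) ?_ ?_
      · exact (by fun_prop : Continuous fun t : ℝ =>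
          (Complex.exp (Complex.I * ((Real.log n - Real.log m : ℝ) : ℂ) * t) *
            Complex.exp (-(b : ℂ) * t ^ 2))).aestronglyMeasurable
      · refine Filter.Eventually.of_forall fun t => ?_
        rw [norm_mul, Complex.norm_exp, Complex.norm_exp]
        have e1 : (Complex.I * ((Real.log n - Real.log m : ℝ) : ℂ) * t).re = 0 := by
          rw [mul_assoc, ← Complex.ofReal_mul, Complex.re_mul_ofReal, Complex.I_re, zero_mul]
        have e2 : (-(b : ℂ) * (t : ℂ) ^ 2).re = -b * t ^ 2 := by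
          rw [← Complex.ofReal_neg, ← Complex.ofReal_pow, ← Complex.ofReal_mul,
            Complex.ofReal_re]
        rw [e1, e2, Real.exp_zero, one_mul]
    rw [integral_finsetSum _ (fun m _ => integrable_finsetSum _ (fun n _ => hi m n))]
    refine Finset.sum_congr rfl fun m _ => ?_
    rw [integral_finsetSum _ (fun n _ => hi m n)]
    refine Finset.sum_congr rfl fun n _ => ?_
    rw [integral_const_mul, mv_gauss hT0]
    congr 4
    ring
  -- third step
  set A : ℝ := 2 * Real.sqrt Real.pi * N / T with hA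
  have hA0 : 0 < A := by positivity
  have hk : ∀ m ∈ Icc 1 N, ∀ n ∈ Icc 1 N,
      Real.exp (-(T ^ 2 * (Real.log m - Real.log n) ^ 2 / (4 * Real.pi)))
        ≤ Real.exp (-(((m : ℝ) - n) ^ 2 / A ^ 2)) := by
    intro m hm n hn
    rw [Finset.mem_Icc] at hm hn
    apply Real.exp_le_exp.2
    have h1 := mv_log hm.1 hn.1 hm.2 hn.2
    have h2 : (|(m : ℝ) - n| / N) ^ 2 ≤ |Real.log m - Real.log n| ^ 2 := by gcongr
    rw [div_pow, sq_abs, sq_abs] at h2
    have h3 : ((m : ℝ) - n) ^ 2 / A ^ 2 = T ^ 2 * ((((m : ℝ) - n) ^ 2) / N ^ 2) / (4 * Real.pi) := by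
      rw [hA, div_pow, mul_pow, mul_pow, Real.sq_sqrt Real.pi_pos.le]
      have := Real.pi_pos.ne'
      field_simp
      ring
    rw [h3]
    gcongr
  have step3 : ∫ t : ℝ, Real.exp (-b * t ^ 2) * ‖D t‖ ^ 2 ≤
      T * (1 + 4 * A) * ∑ n ∈ Icc 1 N, ‖c n‖ ^ 2 := by
    have h0 : 0 ≤ ∫ t : ℝ, Real.exp (-b * t ^ 2) * ‖D t‖ ^ 2 :=
      integral_nonneg fun t => by positivity
    have h1 : ∫ t : ℝ, Real.exp (-b * t ^ 2) * ‖D t‖ ^ 2
        = ‖((∫ t : ℝ, Real.exp (-b * t ^ 2) * ‖D t‖ ^ 2 : ℝ) : ℂ)‖ := by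
      rw [Complex.norm_real, Real.norm_of_nonneg h0]
    rw [h1, step2]
    set e : ℕ → ℕ → ℝ := fun m n => Real.exp (-(((m : ℝ) - n) ^ 2 / A ^ 2)) with he
    have hesymm : ∀ m n, e m n = e n m := by
      intro m n
      simp only [he]
      congr 3
      ring
    calc ‖∑ m ∈ Icc 1 N, ∑ n ∈ Icc 1 N, c m * (starRingEnd ℂ) (c n) *
        ((T * Real.exp (-(T ^ 2 * (Real.log m - Real.log n) ^ 2 / (4 * Real.pi))) : ℝ) : ℂ)‖
        ≤ ∑ m ∈ Icc 1 N, ∑ n ∈ Icc 1 N, ‖c m * (starRingEnd ℂ) (c n) *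
        ((T * Real.exp (-(T ^ 2 * (Real.log m - Real.log n) ^ 2 / (4 * Real.pi))) : ℝ) : ℂ)‖ :=
          (norm_sum_le _ _).trans (Finset.sum_le_sum fun m _ => norm_sum_le _ _)
      _ ≤ ∑ m ∈ Icc 1 N, ∑ n ∈ Icc 1 N, T * ((‖c m‖ ^ 2 * e m n) / 2 + (‖c n‖ ^ 2 * e m n) / 2) := by
          apply Finset.sum_le_sum
          intro m hm
          apply Finset.sum_le_sum
          intro n hn
          rw [norm_mul, norm_mul, Complex.norm_real, RCLike.norm_conj,
            Real.norm_of_nonneg (by positivity)]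
          have h2 := hk m hm n hn
          have h3 : ‖c m‖ * ‖c n‖ ≤ ‖c m‖ ^ 2 / 2 + ‖c n‖ ^ 2 / 2 := by
            nlinarith [sq_nonneg (‖c m‖ - ‖c n‖)]
          calc ‖c m‖ * ‖c n‖ *
                (T * Real.exp (-(T ^ 2 * (Real.log m - Real.log n) ^ 2 / (4 * Real.pi))))
              ≤ (‖c m‖ ^ 2 / 2 + ‖c n‖ ^ 2 / 2) * (T * e m n) := by gcongr
            _ = _ := by ring
      _ = T * (∑ m ∈ Icc 1 N, ∑ n ∈ Icc 1 N, ‖c m‖ ^ 2 * e m n / 2
            + ∑ m ∈ Icc 1 N, ∑ n ∈ Icc 1 N, ‖c n‖ ^ 2 * e m n / 2) := by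
          rw [← Finset.sum_add_distrib, Finset.mul_sum]
          refine Finset.sum_congr rfl fun m _ => ?_
          rw [← Finset.sum_add_distrib, Finset.mul_sum]
      _ = T * ∑ n ∈ Icc 1 N, ‖c n‖ ^ 2 * ∑ m ∈ Icc 1 N, e m n := by
          congr 1
          rw [Finset.sum_comm (f := fun m n => ‖c n‖ ^ 2 * e m n / 2), ← Finset.sum_add_distrib]
          refine Finset.sum_congr rfl fun n _ => ?_
          rw [← Finset.sum_add_distrib, Finset.mul_sum]
          refine Finset.sum_congr rfl fun m _ => ?_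
          rw [hesymm n m]
          ring
      _ ≤ T * ∑ n ∈ Icc 1 N, ‖c n‖ ^ 2 * (1 + 4 * A) := by
          gcongr with n hn
          rw [Finset.mem_Icc] at hn
          exact mv_theta hA0 N n hn.1 hn.2
      _ = _ := by
          rw [← Finset.sum_mul]
          ring
  have hS : 0 ≤ ∑ n ∈ Icc 1 N, ‖c n‖ ^ 2 := Finset.sum_nonneg fun _ _ => sq_nonneg _
  have hfin : T * (1 + 4 * A) ≤ 16 * (T + N) := by
    have h1 : T * (1 + 4 * A) = T + 8 * Real.sqrt Real.pi * N := by
      rw [hA]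
      field_simp
      ring
    have h2 : Real.sqrt Real.pi ≤ 2 := by
      rw [Real.sqrt_le_left (by norm_num)]
      have := Real.pi_lt_d2
      norm_num
      linarith
    rw [h1]
    nlinarith
  calc ∫ t in (-T)..T, ‖D t‖ ^ 2
      ≤ Real.exp Real.pi * ∫ t : ℝ, Real.exp (-b * t ^ 2) * ‖D t‖ ^ 2 := step1
    _ ≤ Real.exp Real.pi * (T * (1 + 4 * A) * ∑ n ∈ Icc 1 N, ‖c n‖ ^ 2) := by gcongr
    _ ≤ Real.exp Real.pi * (16 * (T + N) * ∑ n ∈ Icc 1 N, ‖c n‖ ^ 2) := by gcongr
    _ = Real.exp Real.pi * 16 * (T + N) * ∑ n ∈ Icc 1 N, ‖c n‖ ^ 2 := by ring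

end Pool.Agent.Helper40.MR
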