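import Pool.Agent.Helper40.MR.Defs

open Finset MeasureTheory
open scoped BigOperators Nat

namespace Pool.Agent.Helper40.MR

theorem sup_norm_nit (n : ℕ) (t : ℝ) : ‖nit n t‖ = 1 := by
  unfold nit
  rw [← Complex.ofReal_neg, Complex.norm_exp_ofReal_mul_I]

theorem sup_nit_mul {m n : ℕ} (hm : m ≠ 0) (hn : n ≠ 0) (t : ℝ) :
    nit (m * n) t = nit m t * nit n t := by
  unfold nit
  rw [← Complex.exp_add]
  congr 1
  rw [Nat.cast_mul, Real.log_mul (Nat.cast_ne_zero.2 hm) (Nat.cast_ne_zero.2 hn)]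
  push_cast
  ring

theorem sup_nit_add (n : ℕ) (s t : ℝ) : nit n (s + t) = nit n s * nit n t := by
  unfold nit
  rw [← Complex.exp_add]
  congr 1
  push_cast
  ring

theorem sup_nit_one (t : ℝ) : nit 1 t = 1 := by
  unfold nit
  simp

theorem sup_lam_mul (m n : ℕ) : lam (m * n) = lam m * lam n := by
  unfold lam
  by_cases hm : m = 0
  · simp [hm]
  by_cases hn : n = 0
  · simp [hn]
  rw [if_neg hm, if_neg hn, if_neg (Nat.mul_ne_zero hm hn), ← pow_add]
  congr 1
  rw [(Nat.perm_primeFactorsList_mul hm hn).length_eq, List.length_append]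

theorem sup_lam_one : lam 1 = 1 := by
  unfold lam
  simp

theorem sup_norm_lam (n : ℕ) : ‖lam n‖ ≤ 1 := by
  unfold lam
  split_ifs
  · simp
  · rw [norm_pow, norm_neg, norm_one, one_pow]

theorem sup_norm_lch {q : ℕ} (χ : DirichletCharacter ℂ q) (n : ℕ) : ‖lch χ n‖ ≤ 1 := by
  unfold lch
  rw [norm_mul]
  exact mul_le_one₀ (sup_norm_lam n) (norm_nonneg _) (DirichletCharacter.norm_le_one χ _)

theorem sup_lch_mul {q : ℕ} (χ : DirichletCharacter ℂ q) (m n : ℕ) :
    lch χ (m * n) = lch χ m * lch χ n := by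
  unfold lch
  rw [sup_lam_mul, Nat.cast_mul, map_mul]
  ring

theorem sup_lch_one {q : ℕ} (χ : DirichletCharacter ℂ q) : lch χ 1 = 1 := by
  unfold lch
  rw [sup_lam_one, Nat.cast_one, map_one, one_mul]

theorem sup_lch_zero {q : ℕ} (χ : DirichletCharacter ℂ q) : lch χ 0 = 0 := by
  unfold lch lam
  simp

theorem sup_hit_mul (P Q : ℝ) (m n : ℕ) : Hit P Q (m * n) ↔ Hit P Q m ∨ Hit P Q n := by
  constructor
  · rintro ⟨p, hp, h1, h2, h3⟩
    rcases (Nat.Prime.dvd_mul hp).1 h3 with h | h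
    · exact Or.inl ⟨p, hp, h1, h2, h⟩
    · exact Or.inr ⟨p, hp, h1, h2, h⟩
  · rintro (⟨p, hp, h1, h2, h3⟩ | ⟨p, hp, h1, h2, h3⟩)
    · exact ⟨p, hp, h1, h2, h3.mul_right n⟩
    · exact ⟨p, hp, h1, h2, h3.mul_left m⟩

theorem sup_hit_one (P Q : ℝ) : ¬ Hit P Q 1 := by
  rintro ⟨p, hp, -, -, h⟩
  exact hp.one_lt.ne' (Nat.dvd_one.1 h)

theorem sup_Om_mul (P Q : ℝ) {m n : ℕ} (hm : m ≠ 0) (hn : n ≠ 0) :
    Om P Q (m * n) = Om P Q m + Om P Q n := by
  unfold Om
  rw [Nat.factorization_mul hm hn, ← Finset.sum_add_distrib]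
  rfl

theorem sup_Om_one (P Q : ℝ) : Om P Q 1 = 0 := by
  unfold Om
  simp

theorem sup_Om_prime (P Q : ℝ) {p : ℕ} (hp : p.Prime) (h : p ∉ PrI P Q) : Om P Q p = 0 := by
  unfold Om
  apply Finset.sum_eq_zero
  intro r hr
  rw [Nat.Prime.factorization hp, Finsupp.single_apply, if_neg]
  rintro rfl
  exact h hr

open Classical in
/-- the completely multiplicative functions of the decomposition -/
noncomputable def supG {q : ℕ} (χ : DirichletCharacter ℂ q) (P Q : ℕ → ℝ) (a b : ℝ)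
    (A : Finset ℕ) (y t : ℝ) (n : ℕ) : ℂ :=
  if ∀ j ∈ A, ¬ Hit (P j) (Q j) n then lch χ n * (y : ℂ) ^ (Om a b n) * nit n t else 0

theorem sup_CM {q : ℕ} (χ : DirichletCharacter ℂ q) (P Q : ℕ → ℝ) (a b : ℝ)
    (A : Finset ℕ) {y : ℝ} (hy0 : 0 ≤ y) (hy1 : y ≤ 1) (t : ℝ) :
    CM (supG χ P Q a b A y t) := by
  refine ⟨?_, ?_, ?_⟩
  · unfold supG
    rw [if_pos (fun j _ => sup_hit_one _ _), sup_lch_one, sup_Om_one, sup_nit_one]
    simp
  · intro m n
    unfold supG
    by_cases hm : ∀ j ∈ A, ¬ Hit (P j) (Q j) m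
    · by_cases hn : ∀ j ∈ A, ¬ Hit (P j) (Q j) n
      · have hmn : ∀ j ∈ A, ¬ Hit (P j) (Q j) (m * n) := by
          intro j hj h
          rcases (sup_hit_mul _ _ _ _).1 h with h | h
          · exact hm j hj h
          · exact hn j hj h
        rw [if_pos hm, if_pos hn, if_pos hmn]
        by_cases hm0 : m = 0
        · subst hm0
          rw [zero_mul, sup_lch_zero]
          simp
        by_cases hn0 : n = 0
        · subst hn0
          rw [mul_zero, sup_lch_zero]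
          simp
        rw [sup_lch_mul, sup_Om_mul _ _ hm0 hn0, sup_nit_mul hm0 hn0, pow_add]
        ring
      · have hmn : ¬ ∀ j ∈ A, ¬ Hit (P j) (Q j) (m * n) := by
          intro h
          apply hn
          intro j hj h'
          exact h j hj ((sup_hit_mul _ _ _ _).2 (Or.inr h'))
        rw [if_neg hn, if_neg hmn, mul_zero]
    · have hmn : ¬ ∀ j ∈ A, ¬ Hit (P j) (Q j) (m * n) := by
        intro h
        apply hm
        intro j hj h'
        exact h j hj ((sup_hit_mul _ _ _ _).2 (Or.inl h'))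
      rw [if_neg hm, if_neg hmn, zero_mul]
  · intro n
    unfold supG
    split_ifs
    · rw [norm_mul, norm_mul, sup_norm_nit, mul_one, norm_pow, Complex.norm_real,
        Real.norm_of_nonneg hy0]
      exact mul_le_one₀ (sup_norm_lch χ n) (pow_nonneg hy0 _) (pow_le_one₀ hy0 hy1)
    · simp

theorem sup_re_le {z : ℂ} (h : ‖z‖ ≤ 1) : 0 ≤ 1 - z.re ∧ 1 - z.re ≤ 2 := by
  have h1 := (abs_le.1 ((Complex.abs_re_le_norm z).trans h))
  constructor <;> linarith [h1.1, h1.2]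

/-- pointwise comparison of the distances -/
theorem sup_point {q : ℕ} (χ : DirichletCharacter ℂ q) (P Q : ℕ → ℝ) (a b : ℝ) (J : ℕ)
    {A : Finset ℕ} (hA : A ⊆ range J) {y : ℝ} (hy0 : 0 ≤ y) (hy1 : y ≤ 1) (t s : ℝ) {p : ℕ}
    (hp : p.Prime) :
    (1 - (lch χ p * nit p (t + s)).re) / p ≤
      (1 - (supG χ P Q a b A y t p * nit p s).re) / p
      + (if p ∈ PrI a b then 2 / (p : ℝ) else 0)
      + ∑ j ∈ range J, (if p ∈ PrI (P j) (Q j) then 2 / (p : ℝ) else 0) := by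
  have hp0 : (0 : ℝ) < p := by exact_mod_cast hp.pos
  have h1 : ‖lch χ p * nit p (t + s)‖ ≤ 1 := by
    rw [norm_mul, sup_norm_nit, mul_one]
    exact sup_norm_lch χ p
  have h2 : ‖supG χ P Q a b A y t p * nit p s‖ ≤ 1 := by
    rw [norm_mul, sup_norm_nit, mul_one]
    exact (sup_CM χ P Q a b A hy0 hy1 t).2.2 p
  have h3 := (sup_re_le h1).2
  have h4 := (sup_re_le h2).1
  have h5 : 0 ≤ (if p ∈ PrI a b then 2 / (p : ℝ) else 0) := by
    split_ifs <;> positivity
  have h6 : ∀ j ∈ range J, 0 ≤ (if p ∈ PrI (P j) (Q j) then 2 / (p : ℝ) else 0) := by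
    intro j _
    split_ifs <;> positivity
  by_cases hab : p ∈ PrI a b
  · rw [if_pos hab]
    have h7 : (1 - (lch χ p * nit p (t + s)).re) / p ≤ 2 / p :=
      div_le_div_of_nonneg_right h3 hp0.le
    have h8 : 0 ≤ (1 - (supG χ P Q a b A y t p * nit p s).re) / p := div_nonneg h4 hp0.le
    have h9 := Finset.sum_nonneg h6
    linarith
  by_cases hj : ∃ j ∈ range J, p ∈ PrI (P j) (Q j)
  · obtain ⟨j, hj, hpj⟩ := hj
    have h7 : (1 - (lch χ p * nit p (t + s)).re) / p ≤ 2 / p :=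
      div_le_div_of_nonneg_right h3 hp0.le
    have h8 : 0 ≤ (1 - (supG χ P Q a b A y t p * nit p s).re) / p := div_nonneg h4 hp0.le
    have h9 := Finset.single_le_sum h6 hj
    rw [if_pos hpj] at h9
    linarith
  · push Not at hj
    have h7 : supG χ P Q a b A y t p * nit p s = lch χ p * nit p (t + s) := by
      unfold supG
      rw [if_pos, sup_Om_prime a b hp hab, pow_zero, mul_one, sup_nit_add, mul_assoc]
      rintro j hjA ⟨r, hr, hr1, hr2, hr3⟩
      have h8 : r = p := (Nat.prime_dvd_prime_iff_eq hr hp).1 hr3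
      subst h8
      apply hj j (hA hjA)
      unfold PrI IocN
      rw [Finset.mem_filter, Finset.mem_Ioc]
      refine ⟨⟨?_, ?_⟩, hr⟩
      · by_cases hPj : 0 ≤ P j
        · exact (Nat.floor_lt hPj).2 hr1
        · push Not at hPj
          rw [Nat.floor_of_nonpos hPj.le]
          exact hr.pos
      · exact Nat.le_floor hr2
    rw [h7]
    have h9 := Finset.sum_nonneg h6
    linarith

theorem sup_dist {q : ℕ} (χ : DirichletCharacter ℂ q) (P Q : ℕ → ℝ) (a b : ℝ) (J : ℕ)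
    {A : Finset ℕ} (hA : A ⊆ range J) {y : ℝ} (hy0 : 0 ≤ y) (hy1 : y ≤ 1) (t s x : ℝ) :
    ∑ p ∈ PrL x, (1 - (lch χ p * nit p (t + s)).re) / p ≤
      ∑ p ∈ PrL x, (1 - (supG χ P Q a b A y t p * nit p s).re) / p
      + 2 * ∑ p ∈ PrI a b, 1 / (p : ℝ)
      + ∑ j ∈ range J, 2 * ∑ p ∈ PrI (P j) (Q j), 1 / (p : ℝ) := by
  have key : ∀ S : Finset ℕ, ∑ p ∈ PrL x, (if p ∈ S then 2 / (p : ℝ) else 0)
      ≤ 2 * ∑ p ∈ S, 1 / (p : ℝ) := by
    intro S
    rw [← Finset.sum_filter, Finset.mul_sum]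
    calc ∑ p ∈ (PrL x).filter (fun p => p ∈ S), 2 / (p : ℝ)
        ≤ ∑ p ∈ S, 2 / (p : ℝ) := by
          apply Finset.sum_le_sum_of_subset_of_nonneg
          · intro p hp
            exact (Finset.mem_filter.1 hp).2
          · intro p _ _
            positivity
      _ = ∑ p ∈ S, 2 * (1 / (p : ℝ)) := by
          refine Finset.sum_congr rfl fun p _ => ?_
          ring
  calc ∑ p ∈ PrL x, (1 - (lch χ p * nit p (t + s)).re) / p
      ≤ ∑ p ∈ PrL x, ((1 - (supG χ P Q a b A y t p * nit p s).re) / p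
        + (if p ∈ PrI a b then 2 / (p : ℝ) else 0)
        + ∑ j ∈ range J, (if p ∈ PrI (P j) (Q j) then 2 / (p : ℝ) else 0)) := by
        apply Finset.sum_le_sum
        intro p hp
        exact sup_point χ P Q a b J hA hy0 hy1 t s (Finset.mem_filter.1 hp).2
    _ = ∑ p ∈ PrL x, (1 - (supG χ P Q a b A y t p * nit p s).re) / p
        + ∑ p ∈ PrL x, (if p ∈ PrI a b then 2 / (p : ℝ) else 0)
        + ∑ j ∈ range J, ∑ p ∈ PrL x, (if p ∈ PrI (P j) (Q j) then 2 / (p : ℝ) else 0) := by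
        rw [Finset.sum_add_distrib, Finset.sum_add_distrib, Finset.sum_comm]
    _ ≤ _ := by
        gcongr
        · exact key _
        · exact key _

theorem sup_sum_PrI {a b : ℝ} (hab : a ≤ b) :
    ∑ p ∈ PrI a b, 1 / (p : ℝ) = ∑ p ∈ PrL b, 1 / (p : ℝ) - ∑ p ∈ PrL a, 1 / (p : ℝ) := by
  have h : PrL b = PrL a ∪ PrI a b := by
    ext p
    unfold PrL PrI IocN
    simp only [Finset.mem_union, Finset.mem_filter, Finset.mem_Icc, Finset.mem_Ioc]
    have h1 := Nat.floor_le_floor hab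
    constructor
    · rintro ⟨⟨h2, h3⟩, h4⟩
      by_cases h5 : p ≤ ⌊a⌋₊
      · exact Or.inl ⟨⟨h2, h5⟩, h4⟩
      · exact Or.inr ⟨⟨by omega, h3⟩, h4⟩
    · rintro (⟨⟨h2, h3⟩, h4⟩ | ⟨⟨h2, h3⟩, h4⟩)
      · exact ⟨⟨h2, h3.trans h1⟩, h4⟩
      · exact ⟨⟨by omega, h3⟩, h4⟩
  rw [h, Finset.sum_union]
  · ring
  · rw [Finset.disjoint_left]
    intro p
    unfold PrL PrI IocN
    simp only [Finset.mem_filter, Finset.mem_Icc, Finset.mem_Ioc]
    rintro ⟨⟨_, h3⟩, _⟩ ⟨⟨h4, _⟩, _⟩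
    omega

/-- Abel summation -/
theorem sup_abel (g : ℕ → ℂ) {ε : ℝ} (a b : ℕ) (M : ℝ) (hM : 0 < M) (ha : (a : ℝ) ≤ M)
    (ha' : M < a + 1) (hb : (b : ℝ) ≤ 2 * M) (hab : a ≤ b)
    (h0 : ‖∑ n ∈ Icc 1 a, g n‖ ≤ ε * M)
    (h : ∀ m : ℕ, a < m → m ≤ b → ‖∑ n ∈ Icc 1 m, g n‖ ≤ ε * m) (hε : 0 ≤ ε) :
    ‖∑ m ∈ Ioc a b, g m / m‖ ≤ 3 * ε := by
  set S : ℕ → ℂ := fun m => ∑ n ∈ Icc 1 m, g n with hS
  -- summation by parts, by induction on b
  have key : ∀ c : ℕ, a ≤ c → ∑ m ∈ Ioc a c, g m / m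
      = S c / (c + 1) - S a / (a + 1) + ∑ m ∈ Ioc a c, S m * (1 / (m : ℂ) - 1 / (m + 1)) := by
    intro c hc
    induction c, hc using Nat.le_induction with
    | base => simp
    | succ c hc ih =>
      rw [← Finset.insert_Ioc_right_eq_Ioc_add_one hc, Finset.sum_insert (by simp),
        Finset.sum_insert (by simp), ih]
      have hSc : S (c + 1) = S c + g (c + 1) := by
        simp only [hS]
        rw [Finset.sum_Icc_succ_top (by omega)]
      have hc1 : ((c : ℂ) + 1) ≠ 0 := by exact_mod_cast Nat.succ_ne_zero c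
      have hc2 : ((c : ℂ) + 1 + 1) ≠ 0 := by exact_mod_cast Nat.succ_ne_zero (c + 1)
      rw [hSc]
      push_cast
      field_simp
      ring
  rw [key b hab]
  have ha1 : (0 : ℝ) < a + 1 := by positivity
  have e1 : ‖S b / (b + 1)‖ ≤ ε := by
    have hb1 : (0 : ℝ) < b + 1 := by positivity
    rw [norm_div]
    have : ‖((b : ℂ) + 1)‖ = (b : ℝ) + 1 := by
      rw [← Nat.cast_add_one, Complex.norm_natCast, Nat.cast_add_one]
    rw [this, div_le_iff₀ hb1]
    rcases hab.eq_or_lt with hab' | hab'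
    · rw [← hab']
      exact h0.trans (mul_le_mul_of_nonneg_left ha'.le hε)
    · refine (h b hab' le_rfl).trans (mul_le_mul_of_nonneg_left ?_ hε)
      linarith
  have e2 : ‖S a / (a + 1)‖ ≤ ε := by
    rw [norm_div]
    have : ‖((a : ℂ) + 1)‖ = (a : ℝ) + 1 := by
      rw [← Nat.cast_add_one, Complex.norm_natCast, Nat.cast_add_one]
    rw [this, div_le_iff₀ ha1]
    exact h0.trans (mul_le_mul_of_nonneg_left ha'.le hε)
  have e3 : ‖∑ m ∈ Ioc a b, S m * (1 / (m : ℂ) - 1 / (m + 1))‖ ≤ ε := by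
    calc ‖∑ m ∈ Ioc a b, S m * (1 / (m : ℂ) - 1 / (m + 1))‖
        ≤ ∑ m ∈ Ioc a b, ‖S m * (1 / (m : ℂ) - 1 / (m + 1))‖ := norm_sum_le _ _
      _ ≤ ∑ m ∈ Ioc a b, ε / (a + 1) := by
        apply Finset.sum_le_sum
        intro m hm
        rw [Finset.mem_Ioc] at hm
        have hm0 : (0 : ℝ) < m := by exact_mod_cast (by omega : 0 < m)
        have hm1 : (1 / (m : ℂ) - 1 / (m + 1)) = ((1 / ((m : ℝ) * (m + 1)) : ℝ) : ℂ) := by
          have h1 : (m : ℂ) ≠ 0 := by exact_mod_cast hm0.ne'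
          have h2 : ((m : ℂ) + 1) ≠ 0 := by exact_mod_cast Nat.succ_ne_zero m
          push_cast
          field_simp
          ring
        rw [hm1, norm_mul, Complex.norm_real, Real.norm_of_nonneg (by positivity)]
        have h1 := h m hm.1 hm.2
        have h2 : (a : ℝ) + 1 ≤ m + 1 := by
          have : (a : ℝ) ≤ m := by exact_mod_cast hm.1.le
          linarith
        calc ‖S m‖ * (1 / ((m : ℝ) * (m + 1))) ≤ (ε * m) * (1 / ((m : ℝ) * (m + 1))) :=
              mul_le_mul_of_nonneg_right h1 (by positivity)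
          _ = ε / (m + 1) := by field_simp
          _ ≤ ε / (a + 1) := by gcongr
      _ ≤ ε := by
        rw [Finset.sum_const, Nat.card_Ioc, nsmul_eq_mul, Nat.cast_sub hab]
        rw [mul_div_assoc', div_le_iff₀ ha1]
        have hb2 : (b : ℝ) < 2 * a + 2 := by linarith
        have hb3 : b < 2 * a + 2 := by exact_mod_cast hb2
        have hb4 : (b : ℝ) ≤ 2 * a + 1 := by exact_mod_cast (by omega : b ≤ 2 * a + 1)
        nlinarith
  calc ‖S b / (b + 1) - S a / (a + 1) + ∑ m ∈ Ioc a b, S m * (1 / (m : ℂ) - 1 / (m + 1))‖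
      ≤ ‖S b / (b + 1) - S a / (a + 1)‖
        + ‖∑ m ∈ Ioc a b, S m * (1 / (m : ℂ) - 1 / (m + 1))‖ := norm_add_le _ _
    _ ≤ (‖S b / (b + 1)‖ + ‖S a / (a + 1)‖) + ε := add_le_add (norm_sub_le _ _) e3
    _ ≤ 3 * ε := by linarith

open Classical in
/-- inclusion-exclusion -/
theorem sup_incl (P Q : ℕ → ℝ) (J n : ℕ) :
    (if ∀ j ∈ range J, Hit (P j) (Q j) n then (1 : ℂ) else 0)
      = ∑ A ∈ (range J).powerset, (-1 : ℂ) ^ A.card *
        (if ∀ j ∈ A, ¬ Hit (P j) (Q j) n then 1 else 0) := by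
  have h1 : ∏ j ∈ range J, (1 - (if ¬ Hit (P j) (Q j) n then (1 : ℂ) else 0))
      = (if ∀ j ∈ range J, Hit (P j) (Q j) n then (1 : ℂ) else 0) := by
    split_ifs with h
    · apply Finset.prod_eq_one
      intro j hj
      rw [if_neg (not_not.2 (h j hj)), sub_zero]
    · push Not at h
      obtain ⟨j, hj, hj'⟩ := h
      apply Finset.prod_eq_zero hj
      rw [if_pos hj', sub_self]
  rw [← h1, Finset.prod_sub]
  apply Finset.sum_congr rfl
  intro A hA
  have h2 : ∏ j ∈ A, (if ¬ Hit (P j) (Q j) n then (1 : ℂ) else 0)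
      = (if ∀ j ∈ A, ¬ Hit (P j) (Q j) n then 1 else 0) := by
    split_ifs with h
    · apply Finset.prod_eq_one
      intro j hj
      rw [if_pos (h j hj)]
    · push Not at h
      obtain ⟨j, hj, hj'⟩ := h
      apply Finset.prod_eq_zero hj
      rw [if_neg (not_not.2 hj')]
  rw [h2, Finset.prod_const_one, mul_one]

theorem sup_integral (k : ℕ) : ((1 : ℂ) / ((k : ℂ) + 1)) = ∫ y in (0 : ℝ)..1, (y : ℂ) ^ k := by
  have h1 : ∫ y in (0 : ℝ)..1, (y : ℂ) ^ k = ((∫ y in (0 : ℝ)..1, y ^ k : ℝ) : ℂ) := by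
    rw [← intervalIntegral.integral_ofReal]
    congr 1
    ext y
    push_cast
    rfl
  rw [h1, integral_pow]
  push_cast
  simp

open Classical in
/-- the decomposition of the polynomial -/
theorem sup_decomp {q : ℕ} (χ : DirichletCharacter ℂ q) (P Q : ℕ → ℝ) (a b : ℝ) (J : ℕ)
    (s : Finset ℕ) (t : ℝ) :
    DP s (bco a b (lch χ) (fun n => ∀ j ∈ range J, Hit (P j) (Q j) n)) t =
      ∑ A ∈ (range J).powerset, (-1 : ℂ) ^ A.card *
        ∫ y in (0 : ℝ)..1, ∑ m ∈ s, supG χ P Q a b A y t m / m := by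
  have hcont : ∀ (A : Finset ℕ) (m : ℕ), Continuous fun y : ℝ => supG χ P Q a b A y t m / m := by
    intro A m
    unfold supG
    split_ifs
    · exact ((continuous_const.mul (Complex.continuous_ofReal.pow _)).mul
        continuous_const).div_const _
    · exact continuous_const.div_const _
  have h1 : ∀ (A : Finset ℕ) (m : ℕ), ∫ y in (0 : ℝ)..1, supG χ P Q a b A y t m / m
      = (if ∀ j ∈ A, ¬ Hit (P j) (Q j) m then 1 else 0) *
        (lch χ m / ((Om a b m : ℂ) + 1) / m * nit m t) := by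
    intro A m
    unfold supG
    split_ifs with h
    · have h2 : ∀ y : ℝ, lch χ m * (y : ℂ) ^ Om a b m * nit m t / m
          = (lch χ m * nit m t / m) * (y : ℂ) ^ Om a b m := by
        intro y
        ring
      simp_rw [h2]
      rw [intervalIntegral.integral_const_mul, ← sup_integral]
      ring
    · simp
  calc DP s (bco a b (lch χ) (fun n => ∀ j ∈ range J, Hit (P j) (Q j) n)) t
      = ∑ m ∈ s, (if ∀ j ∈ range J, Hit (P j) (Q j) m then (1 : ℂ) else 0) *
          (lch χ m / ((Om a b m : ℂ) + 1) / m * nit m t) := by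
        unfold DP bco
        refine Finset.sum_congr rfl fun m _ => ?_
        split_ifs <;> ring
    _ = ∑ m ∈ s, ∑ A ∈ (range J).powerset, (-1 : ℂ) ^ A.card *
          ((if ∀ j ∈ A, ¬ Hit (P j) (Q j) m then 1 else 0) *
          (lch χ m / ((Om a b m : ℂ) + 1) / m * nit m t)) := by
        refine Finset.sum_congr rfl fun m _ => ?_
        rw [sup_incl, Finset.sum_mul]
        refine Finset.sum_congr rfl fun A _ => ?_
        ring
    _ = ∑ A ∈ (range J).powerset, (-1 : ℂ) ^ A.card *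
          ∑ m ∈ s, ∫ y in (0 : ℝ)..1, supG χ P Q a b A y t m / m := by
        rw [Finset.sum_comm]
        refine Finset.sum_congr rfl fun A _ => ?_
        rw [Finset.mul_sum]
        refine Finset.sum_congr rfl fun m _ => ?_
        rw [h1]
    _ = _ := by
        refine Finset.sum_congr rfl fun A _ => ?_
        rw [intervalIntegral.integral_finsetSum]
        intro m _
        exact (hcont A m).intervalIntegrable _ _

theorem st_SUP (hHAL : ST_HAL) (hDIST : ST_DIST) (hMER : ST_MER) : ST_SUP := by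
  obtain ⟨C, hC, hHAL⟩ := hHAL
  obtain ⟨C1, hC1, hMER⟩ := hMER
  intro q χ J P Q θ₁ θ₂ δ hq hθ₁ hθ₁₂ hθ₂ hδ
  -- constants
  set ε : ℝ := δ / (3 * 2 ^ J) with hεdef
  have hε : 0 < ε := by positivity
  set h : ℝ := max 1 (2 * C / ε) with hhdef
  have hh1 : 1 ≤ h := le_max_left _ _
  obtain ⟨x₀, hx₀⟩ := hHAL h hh1
  obtain ⟨B, hB⟩ : ∃ B : ℝ, 0 ≤ B ∧ C * Real.exp (-(B / 2)) ≤ ε / 2 := by
    refine ⟨2 * max 0 (Real.log (2 * C / ε)), by positivity, ?_⟩
    have h1 : Real.exp (-(2 * max 0 (Real.log (2 * C / ε)) / 2)) ≤ ε / (2 * C) := by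
      have h2 : -(2 * max 0 (Real.log (2 * C / ε)) / 2) ≤ Real.log (ε / (2 * C)) := by
        have h3 : Real.log (ε / (2 * C)) = -Real.log (2 * C / ε) := by
          rw [← Real.log_inv, inv_div]
        rw [h3]
        have := le_max_right 0 (Real.log (2 * C / ε))
        linarith
      calc Real.exp (-(2 * max 0 (Real.log (2 * C / ε)) / 2))
          ≤ Real.exp (Real.log (ε / (2 * C))) := Real.exp_le_exp.2 h2
        _ = ε / (2 * C) := Real.exp_log (by positivity)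
    calc C * Real.exp (-(2 * max 0 (Real.log (2 * C / ε)) / 2)) ≤ C * (ε / (2 * C)) :=
          mul_le_mul_of_nonneg_left h1 hC.le
      _ = ε / 2 := by field_simp
  obtain ⟨hB0, hB1⟩ := hB
  set R : ℝ := ∑ j ∈ range J, 2 * ∑ p ∈ PrI (P j) (Q j), 1 / (p : ℝ) with hR
  set B' : ℝ := B + R + 2 * (Real.log (θ₂ / θ₁) + 2 * C1) with hB'
  obtain ⟨N₀, hN₀⟩ := hDIST q χ 3 B' hq (by norm_num)
  -- threshold
  set Y : ℝ := max (max x₀ N₀) 3 with hY
  have hY3 : 3 ≤ Y := le_max_right _ _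
  set Z₀ : ℝ := max (Y ^ (2 : ℝ)) ((3 : ℝ) ^ (1 / θ₁)) with hZ₀
  refine ⟨Z₀, fun Z M t hZ hM hMZ ht => ?_⟩
  have hYpos : (0 : ℝ) < Y := by linarith
  have hZ1 : Y ^ (2 : ℝ) ≤ Z := (le_max_left _ _).trans hZ
  have hZ2 : (3 : ℝ) ^ (1 / θ₁) ≤ Z := (le_max_right _ _).trans hZ
  have hZpos : 0 < Z := lt_of_lt_of_le (Real.rpow_pos_of_pos hYpos _) hZ1
  have hMY : Y ≤ M := by
    refine le_trans ?_ hM
    have h1 := Real.rpow_le_rpow (Real.rpow_nonneg hYpos.le _) hZ1
      (by norm_num : (0 : ℝ) ≤ 1 / 2)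
    rw [← Real.rpow_mul hYpos.le] at h1
    norm_num at h1
    exact h1
  have hM3 : 3 ≤ M := hY3.trans hMY
  have hMpos : 0 < M := by linarith
  have hMM : Z ≤ M ^ 2 := by
    have h1 := Real.rpow_le_rpow (Real.rpow_nonneg hZpos.le _) hM (by norm_num : (0 : ℝ) ≤ 2)
    rw [← Real.rpow_mul hZpos.le] at h1
    norm_num at h1
    exact h1
  have ha3 : 3 ≤ Z ^ θ₁ := by
    have h1 := Real.rpow_le_rpow (by positivity) hZ2 hθ₁.le
    rw [← Real.rpow_mul (by norm_num), one_div_mul_cancel hθ₁.ne', Real.rpow_one] at h1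
    exact h1
  have hZge1 : 1 < Z := by
    by_contra hcon
    push Not at hcon
    have := Real.rpow_le_one hZpos.le hcon hθ₁.le
    linarith
  have hab : Z ^ θ₁ ≤ Z ^ θ₂ := Real.rpow_le_rpow_of_exponent_le hZge1.le hθ₁₂.le
  have hPrI : ∑ p ∈ PrI (Z ^ θ₁) (Z ^ θ₂), 1 / (p : ℝ) ≤ Real.log (θ₂ / θ₁) + 2 * C1 := by
    rw [sup_sum_PrI hab]
    have h1 := (hMER _ ha3).1
    have h2 := (hMER _ (ha3.trans hab)).1
    rw [abs_le] at h1 h2
    have hlogZ : 0 < Real.log Z := Real.log_pos hZge1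
    have h3 : Real.log (Real.log (Z ^ θ₂)) - Real.log (Real.log (Z ^ θ₁))
        = Real.log (θ₂ / θ₁) := by
      rw [Real.log_rpow hZpos, Real.log_rpow hZpos, Real.log_mul (by linarith) hlogZ.ne',
        Real.log_mul hθ₁.ne' hlogZ.ne', Real.log_div (by linarith) hθ₁.ne']
      ring
    linarith [h1.1, h2.2]
  -- bound for the summatory functions
  have hSg : ∀ A ∈ (range J).powerset, ∀ y : ℝ, 0 ≤ y → y ≤ 1 → ∀ x : ℝ, M ≤ x → x ≤ 2 * M →
      ‖Sg (supG χ P Q (Z ^ θ₁) (Z ^ θ₂) A y t) x‖ ≤ ε * x := by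
    intro A hA y hy0 hy1 x hx1 hx2
    have hA' := Finset.mem_powerset.1 hA
    have hx0' : x₀ ≤ x := ((le_max_left _ _).trans (le_max_left _ _)).trans (hMY.trans hx1)
    have hxN : N₀ ≤ x := ((le_max_right _ _).trans (le_max_left _ _)).trans (hMY.trans hx1)
    have h1 := hx₀ x hx0' (supG χ P Q (Z ^ θ₁) (Z ^ θ₂) A y t) B
      (sup_CM χ P Q _ _ A hy0 hy1 t) hB0 ?_
    · refine h1.trans ?_
      apply mul_le_mul_of_nonneg_right _ (by linarith)
      have h2 : C * (1 / h) ≤ ε / 2 := by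
        have h3 : 2 * C / ε ≤ h := le_max_right _ _
        have h4 : 0 < h := by linarith
        rw [mul_one_div, div_le_iff₀ h4]
        rw [div_le_iff₀ hε] at h3
        linarith
      linarith
    · intro s hs
      have h2 := sup_dist χ P Q (Z ^ θ₁) (Z ^ θ₂) J hA' hy0 hy1 t s x
      have h3 := hN₀ x (t + s) hxN (by
        calc |t + s| ≤ |t| + |s| := abs_add_le _ _
          _ ≤ M ^ 2 + x := add_le_add (ht.trans hMM) hs
          _ ≤ x ^ (3 : ℝ) := by
            have hx3 : 3 ≤ x := hM3.trans hx1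
            rw [show (3 : ℝ) = ((3 : ℕ) : ℝ) by norm_num, Real.rpow_natCast]
            have : M ^ 2 ≤ x ^ 2 := by gcongr
            nlinarith [sq_nonneg x])
      linarith
  -- assembly
  rw [sup_decomp]
  calc ‖∑ A ∈ (range J).powerset, (-1 : ℂ) ^ A.card *
        ∫ y in (0 : ℝ)..1, ∑ m ∈ IocN M (2 * M), supG χ P Q (Z ^ θ₁) (Z ^ θ₂) A y t m / m‖
      ≤ ∑ A ∈ (range J).powerset, ‖(-1 : ℂ) ^ A.card *
        ∫ y in (0 : ℝ)..1, ∑ m ∈ IocN M (2 * M), supG χ P Q (Z ^ θ₁) (Z ^ θ₂) A y t m / m‖ :=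
        norm_sum_le _ _
    _ ≤ ∑ A ∈ (range J).powerset, 3 * ε := by
        apply Finset.sum_le_sum
        intro A hA
        rw [norm_mul, norm_pow, norm_neg, norm_one, one_pow, one_mul]
        have h1 := intervalIntegral.norm_integral_le_of_norm_le_const
          (f := fun y : ℝ => ∑ m ∈ IocN M (2 * M), supG χ P Q (Z ^ θ₁) (Z ^ θ₂) A y t m / m)
          (a := 0) (b := 1) (C := 3 * ε) ?_
        · simpa using h1
        · intro y hy
          rw [Set.uIoc_of_le zero_le_one] at hy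
          have hfl : ⌊M⌋₊ ≤ ⌊2 * M⌋₊ := Nat.floor_le_floor (by linarith)
          refine sup_abel _ ⌊M⌋₊ ⌊2 * M⌋₊ M hMpos (Nat.floor_le hMpos.le)
            (Nat.lt_floor_add_one M) (Nat.floor_le (by linarith)) hfl ?_ ?_ hε.le
          · exact hSg A hA y hy.1.le hy.2 M le_rfl (by linarith)
          · intro m hm1 hm2
            have hm3 : M ≤ m := ((Nat.lt_floor_add_one M).trans_le (by exact_mod_cast hm1)).le
            have hm4 : (m : ℝ) ≤ 2 * M :=
              le_trans (by exact_mod_cast hm2) (Nat.floor_le (by linarith))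
            have h5 := hSg A hA y hy.1.le hy.2 m hm3 hm4
            unfold Sg at h5
            rw [Nat.floor_natCast] at h5
            exact h5
    _ = δ := by
        rw [Finset.sum_const, Finset.card_powerset, Finset.card_range, nsmul_eq_mul, hεdef]
        push_cast
        field_simp

end Pool.Agent.Helper40.MR
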